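import Pool.Agent.helper440_msz.Rad

/-!
# The triple `16 A + B = c ^ d`
-/

namespace Pool.Agent.helper440_msz

theorem triple2 (e f : ℕ) (he : 1 ≤ e) (hf : 1 ≤ f) :
    ∃ a K₁ c₁ : ℕ, 1 ≤ a ∧ 1 ≤ K₁ ∧ ∀ c : ℕ, a < c → c₁ ≤ c → Nat.Coprime a c →
      ∃ A B : ℕ, 0 < A ∧ 0 < B ∧ B % 2 = 1 ∧ 16 * A + B = c ^ (e + f) ∧ Nat.Coprime A B ∧
        c ^ (e + f) ≤ 2 * B ∧ c ^ f ≤ 2 ^ f * A ∧ A ≤ K₁ * c ^ f ∧
        ((e : ℤ) ^ e * (f : ℤ) ^ f) * (B : ℤ) = (e : ℤ) ^ e * (f : ℤ) ^ f * (c : ℤ) ^ (e + f) -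
          ((e + f : ℕ) : ℤ) ^ (e + f) * (a : ℤ) ^ e * ((c : ℤ) - a) ^ f ∧
        ((16 * A) * B * c ^ (e + f)).primeFactors ⊆ ((a * (c - a) * c) * B).primeFactors := by
  set d : ℕ := e + f with hd
  set E : ℕ := e ^ e * f ^ f with hE
  have hE0 : 0 < E := by positivity
  have hd0 : 0 < d := by omega
  set a : ℕ := 16 * d * E with ha
  have ha0 : 0 < a := by positivity
  set K₁ : ℕ := d ^ (d + 1) * a ^ (e - 1) with hK₁
  have hK0 : 0 < K₁ := by positivity
  refine ⟨a, K₁, 2 * a + 32 * K₁, ha0, hK0, fun c hac hc1 hcop => ?_⟩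
  obtain ⟨b, hb⟩ : ∃ b, c = a + b := ⟨c - a, by omega⟩
  have hb0 : 0 < b := by omega
  have hcb : c - a = b := by omega
  have hc0 : 0 < c := by omega
  set A : ℕ := K₁ * b ^ f with hA
  have hA0 : 0 < A := by positivity
  have hbc : b ≤ c := by omega
  have hAle : A ≤ K₁ * c ^ f := Nat.mul_le_mul_left _ (Nat.pow_le_pow_left hbc _)
  have hAbig : 32 * A ≤ c ^ d := by
    calc 32 * A ≤ 32 * (K₁ * c ^ f) := Nat.mul_le_mul_left _ hAle
      _ = (32 * K₁) * c ^ f := by ring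
      _ ≤ c * c ^ f := Nat.mul_le_mul_right _ (by omega)
      _ ≤ c ^ e * c ^ f := Nat.mul_le_mul_right _ (Nat.le_self_pow (by omega) c)
      _ = c ^ d := by rw [hd, pow_add]
  obtain ⟨B, hB⟩ : ∃ B, 16 * A + B = c ^ d := ⟨c ^ d - 16 * A, by omega⟩
  have hB2 : c ^ d ≤ 2 * B := by omega
  have hB0 : 0 < B := by
    have : 0 < c ^ d := by positivity
    omega
  -- coprimality
  have hca : Nat.Coprime c a := hcop.symm
  have hda : d ∣ a := ⟨16 * E, by rw [ha]; ring⟩
  have h2a : 2 ∣ a := ⟨8 * d * E, by rw [ha]; ring⟩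
  have hcd : Nat.Coprime c d := Nat.Coprime.coprime_dvd_right hda hca
  have hc2 : Nat.Coprime c 2 := Nat.Coprime.coprime_dvd_right h2a hca
  have hcb' : Nat.Coprime c b := by
    have h1 : Nat.Coprime (a + b) a := by rw [← hb]; exact hca
    have h2 : Nat.Coprime b a := (Nat.coprime_add_self_left).1 (by rwa [add_comm] at h1)
    rw [hb]
    exact (Nat.coprime_add_self_left).2 h2.symm
  have hcA : Nat.Coprime c A := by
    rw [hA, hK₁]
    exact Nat.Coprime.mul_right (Nat.Coprime.mul_right (hcd.pow_right _) (hca.pow_right _))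
      (hcb'.pow_right _)
  have hCA : Nat.Coprime (c ^ d) A := hcA.pow_left _
  have hAB : Nat.Coprime A B := by
    have h1 : Nat.Coprime (16 * A + B) A := by rw [hB]; exact hCA
    have h2 : Nat.Coprime (B + A * 16) A := by
      have : 16 * A + B = B + A * 16 := by ring
      rwa [this] at h1
    exact (Nat.Coprime.symm ((Nat.coprime_add_mul_left_left B A 16).1 h2))
  have hBodd : B % 2 = 1 := by
    have h1 : (c ^ d) % 2 = 1 := by
      have : Odd (c ^ d) := Odd.pow ((Nat.coprime_two_right).1 hc2)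
      exact Nat.odd_iff.1 this
    omega
  -- the form
  have hEA : E * (16 * A) = d ^ d * a ^ e * b ^ f := by
    have h1 : a ^ e = a * a ^ (e - 1) := by
      rw [← pow_succ']; congr 1; omega
    rw [hA, hK₁, h1, pow_succ]
    nth_rewrite 2 [ha]
    ring
  refine ⟨A, B, hA0, hB0, hBodd, hB, hAB, hB2, ?_, hAle, ?_, ?_⟩
  · calc c ^ f ≤ (2 * b) ^ f := Nat.pow_le_pow_left (by omega) _
      _ = 2 ^ f * (1 * b ^ f) := by rw [mul_pow, one_mul]
      _ ≤ 2 ^ f * (K₁ * b ^ f) := by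
        exact Nat.mul_le_mul_left _ (Nat.mul_le_mul_right _ hK0)
  · have h1 : (E : ℤ) * (16 * A) = (d : ℤ) ^ d * (a : ℤ) ^ e * (b : ℤ) ^ f := by
      exact_mod_cast hEA
    have h2 : (16 : ℤ) * A + B = (c : ℤ) ^ d := by exact_mod_cast hB
    have h3 : (c : ℤ) - a = b := by rw [hb]; push_cast; ring
    have h4 : (E : ℤ) = (e : ℤ) ^ e * (f : ℤ) ^ f := by rw [hE]; push_cast; ring
    rw [h3, ← h1, ← h2, ← h4]
    ring
  · intro p hp
    have hp' := Nat.prime_of_mem_primeFactors hp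
    have hpd := Nat.dvd_of_mem_primeFactors hp
    refine Nat.mem_primeFactors.2 ⟨hp', ?_, ?_⟩
    · rw [hcb]
      rcases (Nat.Prime.dvd_mul hp').1 hpd with h | h
      · rcases (Nat.Prime.dvd_mul hp').1 h with h | h
        · rcases (Nat.Prime.dvd_mul hp').1 h with h1 | h1
          · have h16 : (16 : ℕ) = 2 ^ 4 := by norm_num
            rw [h16] at h1
            have h4 := (hp'.dvd_of_dvd_pow h1).trans h2a
            exact Dvd.dvd.mul_right (Dvd.dvd.mul_right (Dvd.dvd.mul_right h4 _) _) _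
          · rw [hA, hK₁] at h1
            rcases (Nat.Prime.dvd_mul hp').1 h1 with h2 | h2
            · rcases (Nat.Prime.dvd_mul hp').1 h2 with h3 | h3
              · have h4 := (hp'.dvd_of_dvd_pow h3).trans hda
                exact Dvd.dvd.mul_right (Dvd.dvd.mul_right (Dvd.dvd.mul_right h4 _) _) _
              · have h4 := hp'.dvd_of_dvd_pow h3
                exact Dvd.dvd.mul_right (Dvd.dvd.mul_right (Dvd.dvd.mul_right h4 _) _) _
            · have h4 := hp'.dvd_of_dvd_pow h2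
              exact Dvd.dvd.mul_right (Dvd.dvd.mul_right (Dvd.dvd.mul_left h4 _) _) _
        · exact Dvd.dvd.mul_left h _
      · have h4 := hp'.dvd_of_dvd_pow h
        exact Dvd.dvd.mul_right (Dvd.dvd.mul_left h4 _) _
    · rw [hcb]; positivity

end Pool.Agent.helper440_msz
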