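import Mathlib

/-!
# The radical of `e^e f^f c^(e+f) - (e+f)^(e+f) a^e (c-a)^f`

The form vanishes to the second order at `a : c = e : e + f`, so that its radical is
`O (c ^ (e + f - 1))`.
-/

namespace Pool.Agent.helper440_msz

/-- the radical -/
def R (m : ℕ) : ℕ := ∏ p ∈ m.primeFactors, p

theorem R_le {m : ℕ} (hm : m ≠ 0) : R m ≤ m :=
  Nat.le_of_dvd (Nat.pos_of_ne_zero hm) (Nat.prod_primeFactors_dvd m)

theorem R_pos (m : ℕ) : 0 < R m :=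
  Finset.prod_pos fun _ hp => (Nat.prime_of_mem_primeFactors hp).pos

theorem R_mono {m n : ℕ} (h : m.primeFactors ⊆ n.primeFactors) : R m ≤ R n := by
  unfold R
  exact Finset.prod_le_prod_of_subset_of_one_le' h
    fun p hp _ => (Nat.prime_of_mem_primeFactors hp).pos

theorem R_mul_le (m n : ℕ) : R (m * n) ≤ R m * R n := by
  by_cases hm : m = 0
  · subst hm
    rw [zero_mul]
    exact Nat.le_mul_of_pos_right _ (R_pos n)
  by_cases hn : n = 0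
  · subst hn
    rw [mul_zero]
    exact Nat.le_mul_of_pos_left _ (R_pos m)
  unfold R
  rw [Nat.primeFactors_mul hm hn, ← Finset.prod_union_inter]
  exact Nat.le_mul_of_pos_right _ (Finset.prod_pos fun p hp =>
    (Nat.prime_of_mem_primeFactors (Finset.mem_inter.1 hp).1).pos)

/-- the binomial expansion up to the second order, with a bound for the remainder -/
theorem binom_two (M : ℝ) (hM : 0 ≤ M) (e : ℕ) (he : 1 ≤ e) :
    ∃ K : ℝ, 0 ≤ K ∧ ∀ X u c : ℤ, 0 < c → |(X : ℝ)| ≤ M * c → |(u : ℝ)| ≤ M * c →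
      ∃ S : ℤ, (X + u) ^ e = X ^ e + e * X ^ (e - 1) * u + u ^ 2 * S ∧
        |(S : ℝ)| * c ^ 2 ≤ K * c ^ e := by
  induction e, he using Nat.le_induction with
  | base => exact ⟨0, le_refl _, fun X u c hc _ _ => ⟨0, by simp, by simp⟩⟩
  | succ e he ih =>
    obtain ⟨K, hK, h⟩ := ih
    refine ⟨2 * M * K + e * M ^ (e - 1), by positivity, fun X u c hc hX hu => ?_⟩
    obtain ⟨S, h1, h2⟩ := h X u c hc hX hu
    have hc' : (0 : ℝ) < c := by exact_mod_cast hc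
    refine ⟨(X + u) * S + e * X ^ (e - 1), ?_, ?_⟩
    · have e1 : X ^ e = X * X ^ (e - 1) := by
        rw [← pow_succ']; congr 1; omega
      have e2 : e + 1 - 1 = e := by omega
      rw [pow_succ (X + u) e, h1, e2, pow_succ X e, e1]
      push_cast
      ring
    · push_cast
      have hXu : |(X : ℝ) + u| ≤ 2 * M * c := by
        refine (abs_add_le _ _).trans ?_
        linarith
      have hXp : |(X : ℝ) ^ (e - 1)| ≤ M ^ (e - 1) * (c : ℝ) ^ (e - 1) := by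
        rw [abs_pow, ← mul_pow]
        exact pow_le_pow_left₀ (abs_nonneg _) hX _
      have e3 : (c : ℝ) ^ (e - 1) * c = (c : ℝ) ^ e := by
        rw [← pow_succ]; congr 1; omega
      calc |((X : ℝ) + u) * S + e * X ^ (e - 1)| * (c : ℝ) ^ 2
          ≤ (|(X : ℝ) + u| * |(S : ℝ)| + e * |(X : ℝ) ^ (e - 1)|) * (c : ℝ) ^ 2 := by
            gcongr
            refine (abs_add_le _ _).trans ?_
            rw [abs_mul, abs_mul, Nat.abs_cast]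
        _ = |(X : ℝ) + u| * (|(S : ℝ)| * (c : ℝ) ^ 2) + e * |(X : ℝ) ^ (e - 1)| * (c : ℝ) ^ 2 := by
            ring
        _ ≤ (2 * M * c) * (K * (c : ℝ) ^ e) + e * (M ^ (e - 1) * (c : ℝ) ^ (e - 1)) * (c : ℝ) ^ 2 := by
            gcongr
        _ = (2 * M * K) * ((c : ℝ) ^ e * c) + e * M ^ (e - 1) * ((c : ℝ) ^ (e - 1) * c * c) := by
            ring
        _ = (2 * M * K + e * M ^ (e - 1)) * (c : ℝ) ^ (e + 1) := by
            rw [e3]; ring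

/-- the factorisation of the form: `u = (e + f) a - e c` -/
theorem form_factor (e f : ℕ) (he : 1 ≤ e) (hf : 1 ≤ f) :
    ∃ K : ℝ, 0 ≤ K ∧ ∀ a c : ℤ, 0 < a → a < c →
      ∃ Q : ℤ, (e : ℤ) ^ e * (f : ℤ) ^ f * c ^ (e + f) -
          ((e + f : ℕ) : ℤ) ^ (e + f) * a ^ e * (c - a) ^ f =
        (((e + f : ℕ) : ℤ) * a - e * c) ^ 2 * Q ∧
        |(Q : ℝ)| * c ^ 2 ≤ K * c ^ (e + f) := by
  set M : ℝ := 2 * (e + f) with hM
  have hM0 : 0 ≤ M := by positivity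
  obtain ⟨K₁, hK₁, h₁⟩ := binom_two M hM0 e he
  obtain ⟨K₂, hK₂, h₂⟩ := binom_two M hM0 f hf
  refine ⟨M ^ e * K₂ + K₁ * M ^ f + e * f * (M ^ (e - 1) * M ^ (f - 1)) +
    M * (e * M ^ (e - 1) * K₂ + f * M ^ (f - 1) * K₁) + M ^ 2 * (K₁ * K₂), by positivity,
    fun a c ha hac => ?_⟩
  have hc : 0 < c := ha.trans hac
  have hc' : (0 : ℝ) < c := by exact_mod_cast hc
  have hac' : (a : ℝ) < c := by exact_mod_cast hac
  have ha' : (0 : ℝ) < a := by exact_mod_cast ha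
  set u : ℤ := ((e + f : ℕ) : ℤ) * a - e * c with hu
  have hub : |(u : ℝ)| ≤ M * c := by
    rw [hu]; push_cast
    rw [abs_le]
    constructor
    · nlinarith [mul_pos (Nat.cast_pos.2 he : (0 : ℝ) < e) hc',
        mul_pos (Nat.cast_pos.2 hf : (0 : ℝ) < f) hc', mul_pos (Nat.cast_pos.2 he : (0 : ℝ) < e) ha',
        mul_pos (Nat.cast_pos.2 hf : (0 : ℝ) < f) ha']
    · nlinarith [mul_pos (Nat.cast_pos.2 he : (0 : ℝ) < e) hc',
        mul_pos (Nat.cast_pos.2 hf : (0 : ℝ) < f) hc', mul_pos (Nat.cast_pos.2 he : (0 : ℝ) < e) ha',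
        mul_pos (Nat.cast_pos.2 hf : (0 : ℝ) < f) ha',
        mul_pos (Nat.cast_pos.2 he : (0 : ℝ) < e) (sub_pos.2 hac'),
        mul_pos (Nat.cast_pos.2 hf : (0 : ℝ) < f) (sub_pos.2 hac')]
  have hX : |((e * c : ℤ) : ℝ)| ≤ M * c := by
    push_cast
    rw [abs_of_nonneg (by positivity)]
    nlinarith [mul_pos (Nat.cast_pos.2 he : (0 : ℝ) < e) hc',
      mul_pos (Nat.cast_pos.2 hf : (0 : ℝ) < f) hc']
  have hY : |((f * c : ℤ) : ℝ)| ≤ M * c := by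
    push_cast
    rw [abs_of_nonneg (by positivity)]
    nlinarith [mul_pos (Nat.cast_pos.2 he : (0 : ℝ) < e) hc',
      mul_pos (Nat.cast_pos.2 hf : (0 : ℝ) < f) hc']
  have hub' : |((-u : ℤ) : ℝ)| ≤ M * c := by push_cast; rwa [abs_neg]
  obtain ⟨S, s1, s2⟩ := h₁ (e * c) u c hc hX hub
  obtain ⟨T, t1, t2⟩ := h₂ (f * c) (-u) c hc hY hub'
  set X : ℤ := e * c with hXd
  set Y : ℤ := f * c with hYd
  refine ⟨-(X ^ e * T + S * Y ^ f - e * f * (X ^ (e - 1) * Y ^ (f - 1)) +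
    u * (e * X ^ (e - 1) * T - f * Y ^ (f - 1) * S) + u ^ 2 * (S * T)), ?_, ?_⟩
  · have e1 : X ^ e = X * X ^ (e - 1) := by
      rw [← pow_succ']; congr 1; omega
    have e2 : Y ^ f = Y * Y ^ (f - 1) := by
      rw [← pow_succ']; congr 1; omega
    have e3 : (e : ℤ) ^ e * (f : ℤ) ^ f * c ^ (e + f) = X ^ e * Y ^ f := by
      rw [hXd, hYd, mul_pow, mul_pow, pow_add]; ring
    have e4 : ((e + f : ℕ) : ℤ) ^ (e + f) * a ^ e * (c - a) ^ f = (X + u) ^ e * (Y + -u) ^ f := by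
      have i1 : X + u = ((e + f : ℕ) : ℤ) * a := by rw [hXd, hu]; ring
      have i2 : Y + -u = ((e + f : ℕ) : ℤ) * (c - a) := by rw [hYd, hu]; push_cast; ring
      rw [i1, i2, mul_pow, mul_pow, pow_add]; ring
    have e5 : (e : ℤ) * X ^ (e - 1) * u * Y ^ f = f * Y ^ (f - 1) * u * X ^ e := by
      rw [e1, e2]
      have : (e : ℤ) * Y = f * X := by rw [hXd, hYd]; ring
      calc (e : ℤ) * X ^ (e - 1) * u * (Y * Y ^ (f - 1))
          = (e * Y) * (X ^ (e - 1) * u * Y ^ (f - 1)) := by ring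
        _ = (f * X) * (X ^ (e - 1) * u * Y ^ (f - 1)) := by rw [this]
        _ = _ := by ring
    rw [e3, e4, s1, t1]
    linear_combination (-1 : ℤ) * e5
  · push_cast
    have hXr : |(X : ℝ)| ≤ M * c := hX
    have hYr : |(Y : ℝ)| ≤ M * c := hY
    have pw : ∀ (Z : ℤ) (k : ℕ), |(Z : ℝ)| ≤ M * c → |(Z : ℝ) ^ k| ≤ M ^ k * (c : ℝ) ^ k := by
      intro Z k hZ
      rw [abs_pow, ← mul_pow]
      exact pow_le_pow_left₀ (abs_nonneg _) hZ _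
    have b1 : |(X : ℝ) ^ e * T| * (c : ℝ) ^ 2 ≤ M ^ e * K₂ * (c : ℝ) ^ (e + f) := by
      rw [abs_mul]
      calc |(X : ℝ) ^ e| * |(T : ℝ)| * (c : ℝ) ^ 2 = |(X : ℝ) ^ e| * (|(T : ℝ)| * (c : ℝ) ^ 2) := by
            ring
        _ ≤ (M ^ e * (c : ℝ) ^ e) * (K₂ * (c : ℝ) ^ f) := by
            gcongr
            exact pw X e hXr
        _ = _ := by rw [pow_add]; ring
    have b2 : |(S : ℝ) * Y ^ f| * (c : ℝ) ^ 2 ≤ K₁ * M ^ f * (c : ℝ) ^ (e + f) := by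
      rw [abs_mul]
      calc |(S : ℝ)| * |(Y : ℝ) ^ f| * (c : ℝ) ^ 2 = (|(S : ℝ)| * (c : ℝ) ^ 2) * |(Y : ℝ) ^ f| := by
            ring
        _ ≤ (K₁ * (c : ℝ) ^ e) * (M ^ f * (c : ℝ) ^ f) := by
            gcongr
            exact pw Y f hYr
        _ = _ := by rw [pow_add]; ring
    have c1 : (c : ℝ) ^ (e - 1) * c = (c : ℝ) ^ e := by rw [← pow_succ]; congr 1; omega
    have c2 : (c : ℝ) ^ (f - 1) * c = (c : ℝ) ^ f := by rw [← pow_succ]; congr 1; omega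
    have b3 : |(e : ℝ) * f * (X ^ (e - 1) * Y ^ (f - 1))| * (c : ℝ) ^ 2 ≤
        e * f * (M ^ (e - 1) * M ^ (f - 1)) * (c : ℝ) ^ (e + f) := by
      rw [abs_mul, abs_mul, abs_mul, Nat.abs_cast, Nat.abs_cast]
      calc (e : ℝ) * f * (|(X : ℝ) ^ (e - 1)| * |(Y : ℝ) ^ (f - 1)|) * (c : ℝ) ^ 2
          ≤ (e : ℝ) * f * ((M ^ (e - 1) * (c : ℝ) ^ (e - 1)) * (M ^ (f - 1) * (c : ℝ) ^ (f - 1))) *
            (c : ℝ) ^ 2 := by
            gcongr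
            · exact pw X _ hXr
            · exact pw Y _ hYr
        _ = e * f * (M ^ (e - 1) * M ^ (f - 1)) *
            (((c : ℝ) ^ (e - 1) * c) * ((c : ℝ) ^ (f - 1) * c)) := by ring
        _ = _ := by rw [c1, c2, pow_add]
    have b4 : |(u : ℝ) * ((e : ℝ) * X ^ (e - 1) * T)| * (c : ℝ) ^ 2 ≤
        M * (e * M ^ (e - 1) * K₂) * (c : ℝ) ^ (e + f) := by
      rw [abs_mul, abs_mul, abs_mul, Nat.abs_cast]
      calc |(u : ℝ)| * ((e : ℝ) * |(X : ℝ) ^ (e - 1)| * |(T : ℝ)|) * (c : ℝ) ^ 2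
          = |(u : ℝ)| * ((e : ℝ) * |(X : ℝ) ^ (e - 1)| * (|(T : ℝ)| * (c : ℝ) ^ 2)) := by ring
        _ ≤ (M * c) * ((e : ℝ) * (M ^ (e - 1) * (c : ℝ) ^ (e - 1)) * (K₂ * (c : ℝ) ^ f)) := by
            gcongr
            exact pw X _ hXr
        _ = M * (e * M ^ (e - 1) * K₂) * (((c : ℝ) ^ (e - 1) * c) * (c : ℝ) ^ f) := by ring
        _ = _ := by rw [c1, pow_add]
    have b5 : |(u : ℝ) * ((f : ℝ) * Y ^ (f - 1) * S)| * (c : ℝ) ^ 2 ≤
        M * (f * M ^ (f - 1) * K₁) * (c : ℝ) ^ (e + f) := by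
      rw [abs_mul, abs_mul, abs_mul, Nat.abs_cast]
      calc |(u : ℝ)| * ((f : ℝ) * |(Y : ℝ) ^ (f - 1)| * |(S : ℝ)|) * (c : ℝ) ^ 2
          = |(u : ℝ)| * ((f : ℝ) * |(Y : ℝ) ^ (f - 1)| * (|(S : ℝ)| * (c : ℝ) ^ 2)) := by ring
        _ ≤ (M * c) * ((f : ℝ) * (M ^ (f - 1) * (c : ℝ) ^ (f - 1)) * (K₁ * (c : ℝ) ^ e)) := by
            gcongr
            exact pw Y _ hYr
        _ = M * (f * M ^ (f - 1) * K₁) * (((c : ℝ) ^ (f - 1) * c) * (c : ℝ) ^ e) := by ring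
        _ = _ := by rw [c2, pow_add]; ring
    have b6 : |(u : ℝ) ^ 2 * ((S : ℝ) * T)| * (c : ℝ) ^ 2 ≤
        M ^ 2 * (K₁ * K₂) * (c : ℝ) ^ (e + f) := by
      rw [abs_mul, abs_mul]
      have hu2 := pw u 2 hub
      have k1 : |(u : ℝ) ^ 2| * (|(S : ℝ)| * |(T : ℝ)|) * (c : ℝ) ^ 2 ≤
          (M ^ 2 * (c : ℝ) ^ 2) * (|(S : ℝ)| * |(T : ℝ)|) * (c : ℝ) ^ 2 := by gcongr
      have k2 : (M ^ 2 * (c : ℝ) ^ 2) * (|(S : ℝ)| * |(T : ℝ)|) * (c : ℝ) ^ 2 =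
          M ^ 2 * ((|(S : ℝ)| * (c : ℝ) ^ 2) * (|(T : ℝ)| * (c : ℝ) ^ 2)) := by ring
      have k3 : M ^ 2 * ((|(S : ℝ)| * (c : ℝ) ^ 2) * (|(T : ℝ)| * (c : ℝ) ^ 2)) ≤
          M ^ 2 * ((K₁ * (c : ℝ) ^ e) * (K₂ * (c : ℝ) ^ f)) := by gcongr
      have k4 : M ^ 2 * ((K₁ * (c : ℝ) ^ e) * (K₂ * (c : ℝ) ^ f)) =
          M ^ 2 * (K₁ * K₂) * (c : ℝ) ^ (e + f) := by rw [pow_add]; ring
      linarith
    set x1 : ℝ := (X : ℝ) ^ e * T
    set x2 : ℝ := (S : ℝ) * Y ^ f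
    set x3 : ℝ := (e : ℝ) * f * (X ^ (e - 1) * Y ^ (f - 1))
    have e6 : |-(x1 + x2 - x3 + (u : ℝ) * (e * X ^ (e - 1) * T - f * Y ^ (f - 1) * S) +
        (u : ℝ) ^ 2 * (S * T))| ≤ |x1| + |x2| + |x3| + |(u : ℝ) * ((e : ℝ) * X ^ (e - 1) * T)| +
        |(u : ℝ) * ((f : ℝ) * Y ^ (f - 1) * S)| + |(u : ℝ) ^ 2 * ((S : ℝ) * T)| := by
      rw [abs_neg, abs_le]
      constructor <;>
      · rw [mul_sub]
        have := neg_abs_le x1
        have := le_abs_self x1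
        have := neg_abs_le x2
        have := le_abs_self x2
        have := neg_abs_le x3
        have := le_abs_self x3
        have := neg_abs_le ((u : ℝ) * ((e : ℝ) * X ^ (e - 1) * T))
        have := le_abs_self ((u : ℝ) * ((e : ℝ) * X ^ (e - 1) * T))
        have := neg_abs_le ((u : ℝ) * ((f : ℝ) * Y ^ (f - 1) * S))
        have := le_abs_self ((u : ℝ) * ((f : ℝ) * Y ^ (f - 1) * S))
        have := neg_abs_le ((u : ℝ) ^ 2 * ((S : ℝ) * T))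
        have := le_abs_self ((u : ℝ) ^ 2 * ((S : ℝ) * T))
        linarith
    have hc2 : (0 : ℝ) ≤ (c : ℝ) ^ 2 := by positivity
    have e7 := mul_le_mul_of_nonneg_right e6 hc2
    refine e7.trans ?_
    rw [add_mul, add_mul, add_mul, add_mul, add_mul]
    linarith

/-- the radical of the value of the form -/
theorem R_form (e f : ℕ) (he : 1 ≤ e) (hf : 1 ≤ f) :
    ∃ K : ℝ, 0 < K ∧ ∀ a c B : ℕ, 0 < a → a < c → 0 < B →
      ((e : ℤ) ^ e * (f : ℤ) ^ f) * (B : ℤ) = (e : ℤ) ^ e * (f : ℤ) ^ f * (c : ℤ) ^ (e + f) -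
          ((e + f : ℕ) : ℤ) ^ (e + f) * (a : ℤ) ^ e * ((c : ℤ) - a) ^ f →
      (R B : ℝ) * c ≤ K * (c : ℝ) ^ (e + f) := by
  obtain ⟨K, hK, h⟩ := form_factor e f he hf
  refine ⟨2 * (e + f) * K + 1, by positivity, fun a c B ha hac hB hBe => ?_⟩
  obtain ⟨Q, hQ, hQb⟩ := h a c (by exact_mod_cast ha) (by exact_mod_cast hac)
  set u : ℤ := ((e + f : ℕ) : ℤ) * a - e * c with hu
  have hac' : (a : ℝ) < c := by exact_mod_cast hac
  have ha' : (0 : ℝ) < a := by exact_mod_cast ha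
  have hc' : (0 : ℝ) < c := ha'.trans hac'
  have hE : (0 : ℤ) < (e : ℤ) ^ e * (f : ℤ) ^ f := by positivity
  have hP : (0 : ℤ) < u ^ 2 * Q := by
    rw [← hQ, ← hBe]; positivity
  have hu0 : u ≠ 0 := by rintro h0; rw [h0] at hP; simp at hP
  have hQ0 : Q ≠ 0 := by rintro h0; rw [h0] at hP; simp at hP
  have hdvd : B ∣ (u ^ 2 * Q).natAbs := by
    rw [← Int.natCast_dvd_natCast, Int.natCast_natAbs, dvd_abs, ← hQ, ← hBe]
    exact Dvd.intro_left _ rfl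
  have hR1 : R B ≤ u.natAbs * Q.natAbs := by
    have h1 : B.primeFactors ⊆ (u.natAbs * Q.natAbs).primeFactors := by
      intro p hp
      have hp' := Nat.prime_of_mem_primeFactors hp
      have hpd : p ∣ (u ^ 2 * Q).natAbs := (Nat.dvd_of_mem_primeFactors hp).trans hdvd
      rw [Int.natAbs_mul, Int.natAbs_pow] at hpd
      refine Nat.mem_primeFactors.2 ⟨hp', ?_, ?_⟩
      · rcases (Nat.Prime.dvd_mul hp').1 hpd with h | h
        · exact Dvd.dvd.mul_right (hp'.dvd_of_dvd_pow h) _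
        · exact Dvd.dvd.mul_left h _
      · exact Nat.mul_ne_zero (Int.natAbs_ne_zero.2 hu0) (Int.natAbs_ne_zero.2 hQ0)
    exact (R_mono h1).trans (R_le (Nat.mul_ne_zero (Int.natAbs_ne_zero.2 hu0)
      (Int.natAbs_ne_zero.2 hQ0)))
  have hR2 : (R B : ℝ) ≤ |(u : ℝ)| * |(Q : ℝ)| := by
    have h1 : ((R B : ℕ) : ℝ) ≤ ((u.natAbs * Q.natAbs : ℕ) : ℝ) := by exact_mod_cast hR1
    rwa [Nat.cast_mul, Nat.cast_natAbs, Nat.cast_natAbs, Int.cast_abs, Int.cast_abs] at h1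
  have hub : |(u : ℝ)| ≤ 2 * (e + f) * c := by
    rw [hu]; push_cast
    rw [abs_le]
    constructor
    · nlinarith [mul_pos (Nat.cast_pos.2 he : (0 : ℝ) < e) hc',
        mul_pos (Nat.cast_pos.2 hf : (0 : ℝ) < f) hc', mul_pos (Nat.cast_pos.2 he : (0 : ℝ) < e) ha',
        mul_pos (Nat.cast_pos.2 hf : (0 : ℝ) < f) ha']
    · nlinarith [mul_pos (Nat.cast_pos.2 he : (0 : ℝ) < e) hc',
        mul_pos (Nat.cast_pos.2 hf : (0 : ℝ) < f) hc', mul_pos (Nat.cast_pos.2 he : (0 : ℝ) < e) ha',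
        mul_pos (Nat.cast_pos.2 hf : (0 : ℝ) < f) ha',
        mul_pos (Nat.cast_pos.2 he : (0 : ℝ) < e) (sub_pos.2 hac'),
        mul_pos (Nat.cast_pos.2 hf : (0 : ℝ) < f) (sub_pos.2 hac')]
  have hQb' : |(Q : ℝ)| * (c : ℝ) ^ 2 ≤ K * (c : ℝ) ^ (e + f) := by exact_mod_cast hQb
  have hpos : (0 : ℝ) ≤ (c : ℝ) ^ (e + f) := by positivity
  calc (R B : ℝ) * c ≤ (|(u : ℝ)| * |(Q : ℝ)|) * c := by gcongr
    _ ≤ ((2 * (e + f) * c) * |(Q : ℝ)|) * c := by gcongr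
    _ = 2 * (e + f) * (|(Q : ℝ)| * (c : ℝ) ^ 2) := by ring
    _ ≤ 2 * (e + f) * (K * (c : ℝ) ^ (e + f)) := by gcongr
    _ ≤ (2 * (e + f) * K + 1) * (c : ℝ) ^ (e + f) := by nlinarith

end Pool.Agent.helper440_msz
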