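import Pool.Agent.helper440_msz.Nat2
import Pool.Agent.H902B.Core

/-!
# abc-triples with a term of given size
-/

namespace Pool.Agent.helper440_msz

theorem asym2 (D K y : ℝ) (hD : 0 ≤ D) (hK : 0 ≤ K) (hy : 200 * D + K + 2600 ≤ y) :
    (y + D) ^ 2 / 51 + K ≤ y ^ 2 / 50 := by
  have hy0 : 0 < y := by linarith
  nlinarith [mul_nonneg hD (sub_nonneg.2 hy), mul_nonneg hK (sub_nonneg.2 hy),
    mul_nonneg hy0.le (sub_nonneg.2 hy), mul_nonneg hD hK, mul_nonneg hD hy0.le,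
    mul_nonneg hK hy0.le]

theorem sizes (e f : ℕ) (he : 1 ≤ e) (hf : 1 ≤ f) (ε : ℝ) (hε : 0 < ε) :
    ∃ L₀ : ℝ, ∀ L : ℝ, L₀ ≤ L → ∃ S : Finset ℕ, L ^ (1 / 21 : ℝ) ≤ S.card ∧ ∀ c ∈ S,
      L ≤ Real.log c ∧ Real.log c ≤ L * Real.log L ^ 2 ∧
      ∃ a b : ℕ, 0 < a ∧ 0 < b ∧ Nat.Coprime a b ∧ a + b = c ∧
        |Real.log a / Real.log c - f / (e + f)| < ε ∧
        (R (a * b * c) : ℝ) * Real.exp (Real.log (Real.log c) ^ 2 / 51) < c := by
  obtain ⟨a, K₁, c₁, ha, hK₁, htr⟩ := triple2 e f he hf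
  obtain ⟨K, hK, hR⟩ := R_form e f he hf
  obtain ⟨L0, hcore⟩ := Pool.Agent.H902B.core2
  set d : ℕ := e + f with hd
  have hd1 : 1 ≤ d := by omega
  have hdr : (1 : ℝ) ≤ d := by exact_mod_cast hd1
  have hd0 : (0 : ℝ) < d := by linarith
  have hK₁r : (1 : ℝ) ≤ K₁ := by exact_mod_cast hK₁
  have hlogK₁ : 0 ≤ Real.log K₁ := Real.log_nonneg hK₁r
  have hlog2 : 0 < Real.log 2 := Real.log_pos (by norm_num)
  have hlog16 : 0 < Real.log 16 := Real.log_pos (by norm_num)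
  set K₂ : ℝ := f * Real.log 2 + Real.log K₁ + Real.log 16 with hK₂
  have hf0 : (0 : ℝ) < f := by exact_mod_cast hf
  have hK₂0 : 0 < K₂ := by positivity
  set K₃ : ℝ := max 0 (Real.log K) with hK₃
  have hD0 : 0 ≤ Real.log d := Real.log_nonneg hdr
  -- the conditions on `T = L / d`
  have t1 : ∀ᶠ T : ℝ in Filter.atTop, (Pool.Agent.H902A.rad a : ℝ) ≤ T ^ (1 / 200 : ℝ) :=
    (tendsto_rpow_atTop (by norm_num)).eventually_ge_atTop _
  have t2 : ∀ᶠ T : ℝ in Filter.atTop, Real.log a ≤ Real.log T ^ 2 / 10000 := by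
    have h1 : Filter.Tendsto (fun L : ℝ => Real.log L ^ 2 / 10000) Filter.atTop Filter.atTop :=
      ((Filter.tendsto_pow_atTop (by norm_num)).comp Real.tendsto_log_atTop).atTop_div_const
        (by norm_num)
    exact h1.eventually_ge_atTop _
  have t3 : ∀ᶠ T : ℝ in Filter.atTop, (d : ℝ) ^ (1 / 21 : ℝ) ≤ T ^ (1 / 420 : ℝ) :=
    (tendsto_rpow_atTop (by norm_num)).eventually_ge_atTop _
  have hall : ∀ᶠ T : ℝ in Filter.atTop, L0 ≤ T ∧ 1 ≤ T ∧
      (Pool.Agent.H902A.rad a : ℝ) ≤ T ^ (1 / 200 : ℝ) ∧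
      Real.log a ≤ Real.log T ^ 2 / 10000 ∧ Real.log (c₁ + 1) ≤ T ∧
      (d : ℝ) ^ (1 / 21 : ℝ) ≤ T ^ (1 / 420 : ℝ) ∧ K₂ / ε + 1 ≤ T ∧
      Real.exp (200 * Real.log d + K₃ + 2600) ≤ T :=
    (Filter.eventually_ge_atTop L0).and ((Filter.eventually_ge_atTop 1).and (t1.and
      (t2.and ((Filter.eventually_ge_atTop (Real.log (c₁ + 1))).and (t3.and
      ((Filter.eventually_ge_atTop (K₂ / ε + 1)).and
      (Filter.eventually_ge_atTop (Real.exp (200 * Real.log d + K₃ + 2600)))))))))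
  obtain ⟨T₀, hT₀⟩ := Filter.eventually_atTop.1 hall
  refine ⟨d * T₀, fun L hL => ?_⟩
  set T : ℝ := L / d with hT
  have hTL : T₀ ≤ T := by rw [hT, le_div_iff₀ hd0]; linarith
  obtain ⟨hL0, hL1, hLr, hLa, hLc, hLd, hLε, hLy⟩ := hT₀ T hTL
  have hLT : L = d * T := by rw [hT]; field_simp
  have hT0 : 0 < T := by linarith
  have hTleL : T ≤ L := by rw [hLT]; nlinarith
  obtain ⟨S, hS, hc⟩ := hcore T hL0 a ha hLr hLa
  have hinj : Function.Injective (fun c : ℕ => c ^ d) := Nat.pow_left_injective (by omega)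
  refine ⟨S.image (fun c => c ^ d), ?_, ?_⟩
  · rw [Finset.card_image_of_injective _ hinj]
    refine le_trans ?_ hS
    rw [hLT, Real.mul_rpow hd0.le hT0.le]
    have h1 : T ^ (1 / 20 : ℝ) = T ^ (1 / 420 : ℝ) * T ^ (1 / 21 : ℝ) := by
      rw [← Real.rpow_add hT0]; norm_num
    rw [h1]
    gcongr
  intro C hC
  obtain ⟨c, hcS, rfl⟩ := Finset.mem_image.1 hC
  obtain ⟨hac, hcop, hlc, hlc2, hrad⟩ := hc c hcS
  have hc0 : 0 < c := by omega
  have hcr : (0 : ℝ) < c := by exact_mod_cast hc0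
  set ℓ : ℝ := Real.log c with hℓ
  have hℓ1 : 1 ≤ ℓ := hL1.trans hlc
  have hcc₁ : c₁ ≤ c := by
    have h1 : Real.log (c₁ + 1) ≤ ℓ := hLc.trans hlc
    have h2 : ((c₁ : ℝ) + 1) ≤ c := (Real.log_le_log_iff (by positivity) hcr).1 h1
    have h3 : ((c₁ : ℝ)) ≤ c := by linarith
    exact_mod_cast h3
  obtain ⟨A, B, hA0, hB0, hBodd, hABC, hAB, hB2, hAl, hAu, hform, hpf⟩ := htr c hac hcc₁ hcop
  have hlogC : Real.log ((c ^ d : ℕ) : ℝ) = d * ℓ := by
    rw [Nat.cast_pow, Real.log_pow]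
  have hAr : (0 : ℝ) < A := by exact_mod_cast hA0
  refine ⟨?_, ?_, 16 * A, B, by omega, hB0, ?_, hABC, ?_, ?_⟩
  · rw [hlogC, hLT]; gcongr
  · rw [hlogC]
    have h1 : (d : ℝ) * ℓ ≤ d * (T * Real.log T ^ 2) := by gcongr
    have h2 : Real.log T ^ 2 ≤ Real.log L ^ 2 :=
      pow_le_pow_left₀ (Real.log_nonneg hL1) (Real.log_le_log hT0 hTleL) 2
    have h3 : d * (T * Real.log T ^ 2) = L * Real.log T ^ 2 := by rw [hLT]; ring
    have hLpos : 0 ≤ L := by linarith
    calc (d : ℝ) * ℓ ≤ L * Real.log T ^ 2 := by rw [← h3]; exact h1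
      _ ≤ L * Real.log L ^ 2 := mul_le_mul_of_nonneg_left h2 hLpos
  · have h2B : Nat.Coprime 16 B := by
      have h2 : Nat.Coprime 2 B := (Nat.coprime_two_left).mpr (Nat.odd_iff.mpr hBodd)
      have := Nat.Coprime.pow_left 4 h2
      norm_num at this
      exact this
    exact Nat.Coprime.mul_left h2B hAB
  · -- the size
    have hefr : ((e : ℝ) + f) = d := by rw [hd]; push_cast; ring
    rw [hlogC, hefr]
    have hℓc : ∀ k : ℕ, Real.log ((c : ℝ) ^ k) = k * ℓ := fun k => by rw [Real.log_pow]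
    have hAlr : (c : ℝ) ^ f ≤ 2 ^ f * A := by exact_mod_cast hAl
    have hAur : (A : ℝ) ≤ K₁ * (c : ℝ) ^ f := by exact_mod_cast hAu
    have hl : Real.log ((16 * A : ℕ) : ℝ) = Real.log 16 + Real.log A := by
      rw [Nat.cast_mul, Real.log_mul (by norm_num) (by positivity)]
      norm_num
    have a1 : f * ℓ - f * Real.log 2 ≤ Real.log A := by
      have := Real.log_le_log (by positivity) hAlr
      rw [hℓc, Real.log_mul (by positivity) (by positivity), Real.log_pow] at this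
      linarith
    have a2 : Real.log A ≤ Real.log K₁ + f * ℓ := by
      have := Real.log_le_log hAr hAur
      rw [Real.log_mul (by positivity) (by positivity), hℓc] at this
      linarith
    have hdℓ : 0 < (d : ℝ) * ℓ := by positivity
    have hdiv : Real.log ((16 * A : ℕ) : ℝ) / (d * ℓ) - f / d =
        (Real.log ((16 * A : ℕ) : ℝ) - f * ℓ) / (d * ℓ) := by
      field_simp
    rw [hdiv, abs_div, abs_of_pos hdℓ, div_lt_iff₀ hdℓ, hl]
    have hf2 : 0 ≤ (f : ℝ) * Real.log 2 := by positivity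
    have key : |Real.log 16 + Real.log A - f * ℓ| ≤ K₂ := by
      rw [hK₂, abs_le]; constructor <;> linarith
    refine lt_of_le_of_lt key ?_
    have h1 : K₂ / ε < ℓ := by linarith
    rw [div_lt_iff₀ hε] at h1
    have h2 : ℓ * ε ≤ ε * (d * ℓ) := by nlinarith [mul_pos hε (by linarith : (0 : ℝ) < ℓ)]
    linarith
  · -- the radical
    rw [hlogC]
    set s : ℝ := Real.log ℓ ^ 2 / 50 with hs
    have hcond2 : R ((16 * A) * B * c ^ d) ≤ R (a * (c - a) * c) * R B :=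
      (R_mono hpf).trans (R_mul_le _ _)
    have hcond3 : (R ((16 * A) * B * c ^ d) : ℝ) ≤ (R (a * (c - a) * c) : ℝ) * (R B : ℝ) := by
      exact_mod_cast hcond2
    have hRB : (R B : ℝ) * c ≤ K * (c : ℝ) ^ d := hR a c B (by omega) hac hB0 hform
    have hrad' : (R (a * (c - a) * c) : ℝ) * Real.exp s < c := hrad
    have hRBpos : (0 : ℝ) < (R B : ℝ) := by exact_mod_cast R_pos B
    set N : ℝ := (R ((16 * A) * B * c ^ d) : ℝ) with hN
    have hN0 : 0 ≤ N := Nat.cast_nonneg _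
    have hNs : N * Real.exp s < K * (c : ℝ) ^ d := by
      have h1 : N * Real.exp s * c < K * (c : ℝ) ^ d * c := by
        calc N * Real.exp s * c ≤ ((R (a * (c - a) * c) : ℝ) * (R B : ℝ)) * Real.exp s * c := by
              gcongr
          _ = ((R (a * (c - a) * c) : ℝ) * Real.exp s) * ((R B : ℝ) * c) := by ring
          _ < c * ((R B : ℝ) * c) := by
              exact mul_lt_mul_of_pos_right hrad' (by positivity)
          _ ≤ c * (K * (c : ℝ) ^ d) := by gcongr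
          _ = _ := by ring
      exact lt_of_mul_lt_mul_right h1 hcr.le
    have hy : 200 * Real.log d + K₃ + 2600 ≤ Real.log ℓ := by
      have h1 : Real.exp (200 * Real.log d + K₃ + 2600) ≤ ℓ := hLy.trans hlc
      have := Real.log_le_log (Real.exp_pos _) h1
      rwa [Real.log_exp] at this
    have hK₃0 : 0 ≤ K₃ := le_max_left _ _
    have hA := asym2 (Real.log d) K₃ (Real.log ℓ) hD0 hK₃0 hy
    have h2 : Real.log (d * ℓ) = Real.log ℓ + Real.log d := by
      rw [Real.log_mul (by positivity) (by positivity)]; ring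
    have hK₃2 : K ≤ Real.exp K₃ := by
      have h1 : Real.log K ≤ K₃ := le_max_right _ _
      have := Real.exp_le_exp.2 h1
      rwa [Real.exp_log hK] at this
    have hfin : Real.exp (Real.log (d * ℓ) ^ 2 / 51) * Real.exp K₃ ≤ Real.exp s := by
      rw [← Real.exp_add, Real.exp_le_exp, hs, h2]
      linarith
    have h6 : Real.exp K₃ * (N * Real.exp (Real.log (d * ℓ) ^ 2 / 51)) <
        Real.exp K₃ * (c : ℝ) ^ d := by
      calc Real.exp K₃ * (N * Real.exp (Real.log (d * ℓ) ^ 2 / 51))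
          = N * (Real.exp (Real.log (d * ℓ) ^ 2 / 51) * Real.exp K₃) := by ring
        _ ≤ N * Real.exp s := by gcongr
        _ < K * (c : ℝ) ^ d := hNs
        _ ≤ Real.exp K₃ * (c : ℝ) ^ d := by gcongr
    have h7 := lt_of_mul_lt_mul_left h6 (Real.exp_pos _).le
    rw [Nat.cast_pow]
    exact h7

end Pool.Agent.helper440_msz
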